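import Mathlib
import Pool.Prelude.Def_F_b1b78ff3
import Pool.Agent.W206.IG.Field

/-!
# The inverse Galois problem over `ℚ` is equivalent to a much stronger form

If every finite group is a Galois group over `ℚ`, then every finite group `G` is the Galois group of
a totally real Galois extension of `ℚ` which is unramified at any given finite set of primes not
dividing `|G|`, and whose ramification indices at any given finite set of primes `p` dividing `|G|`
are powers of `p`.

The proof realizes a finite group `H` with a surjection onto `G` in which all involutions, and all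
`τ` of order prime to `p` with `σ τ σ⁻¹ = τ ^ p` for some `σ`, lie in the kernel.
-/

set_option autoImplicit false

open NumberField Nfff32c05

namespace Pool.Agent.Results.MP_dadaab_nt.FreeLocalConditions

/-- `G` is the Galois group of a totally real Galois extension `M` of `ℚ` such that, for all primes
`p` and all primes `ℓ ≠ p` dividing a ramification index of `M` over `p`, `ℓ ^ k` divides
`p ^ |G| - 1`. -/
def TameTo (k : ℕ) (G : Type) [Group G] : Prop :=
  ∃ (M : Type) (_ : Field M) (_ : NumberField M), IsGalois ℚ M ∧ Nonempty (G ≃* (M ≃ₐ[ℚ] M)) ∧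
    IsTotallyReal M ∧ ∀ P : Ideal (𝓞 M), P.IsPrime → ∀ p ℓ : ℕ, p.Prime → ℓ.Prime → ℓ ≠ p →
      (p : 𝓞 M) ∈ P → ℓ ∣ P.ramificationIdx ℤ → ℓ ^ k ∣ p ^ Nat.card G - 1

/-- `G` is the Galois group of a totally real Galois extension `M` of `ℚ` such that all
ramification indices of `M` over each prime `p ∈ S` are powers of `p`, and equal to `1` if `p` does
not divide `|G|`. -/
def WildAt (S : Finset ℕ) (G : Type) [Group G] : Prop :=
  ∃ (M : Type) (_ : Field M) (_ : NumberField M), IsGalois ℚ M ∧ Nonempty (G ≃* (M ≃ₐ[ℚ] M)) ∧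
    IsTotallyReal M ∧ ∀ P : Ideal (𝓞 M), P.IsPrime → ∀ p ∈ S, p.Prime → (p : 𝓞 M) ∈ P →
      (∃ j, P.ramificationIdx ℤ = p ^ j) ∧ (¬ p ∣ Nat.card G → P.ramificationIdx ℤ = 1)

end Pool.Agent.Results.MP_dadaab_nt.FreeLocalConditions

namespace Pool.Agent.W206.IG

open Pool.Agent.Results.MP_dadaab_nt.FreeLocalConditions

/-- a realization over `ℚ` in terms of number fields -/
lemma exists_numberField (H : Type) [Group H] [Finite H] (h : IsRealizable ℚ H) :
    ∃ (L : Type) (_ : Field L) (_ : NumberField L), IsGalois ℚ L ∧ Nonempty (H ≃* (L ≃ₐ[ℚ] L)) := by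
  obtain ⟨⟨L, iF, iA, iG, e⟩⟩ := h.exists_realization
  letI := iF
  have : CharZero L := by
    letI := iA
    exact algebraRat.charZero L
  obtain rfl : iA = DivisionRing.toRatAlgebra := Subsingleton.elim _ _
  have hfin : Finite (L ≃ₐ[ℚ] L) := Finite.of_equiv H e.toEquiv
  have : FiniteDimensional ℚ L := by
    have h1 : IntermediateField.fixedField (⊤ : Subgroup (L ≃ₐ[ℚ] L)) = ⊥ :=
      InfiniteGalois.fixedField_bot
    have h2 : FiniteDimensional (FixedPoints.subfield (⊤ : Subgroup (L ≃ₐ[ℚ] L)) L) L :=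
      inferInstance
    have h3 : FiniteDimensional (IntermediateField.fixedField (⊤ : Subgroup (L ≃ₐ[ℚ] L))) L := h2
    rw [h1] at h3
    have h4 : FiniteDimensional ℚ (⊥ : IntermediateField ℚ L) := inferInstance
    exact FiniteDimensional.trans ℚ (⊥ : IntermediateField ℚ L) L
  exact ⟨L, iF, ⟨⟩, iG, ⟨e⟩⟩

theorem tameTo_of_realizable (G : Type) [Group G] [Finite G] (k : ℕ)
    (h : ∀ (H : Type) [Group H] [Finite H], IsRealizable ℚ H) : TameTo k G := by
  obtain ⟨H, iG, iF, f, hf, h2, hcov⟩ := exists_cover G (k + 1) (Nat.succ_pos k)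
  obtain ⟨L, iL, iN, iGal, ⟨e⟩⟩ := exists_numberField H (h H)
  set g : (L ≃ₐ[ℚ] L) →* G := f.comp e.symm.toMonoidHom with hg
  have hgs : Function.Surjective g := hf.comp e.symm.surjective
  set M := IntermediateField.fixedField g.ker with hM
  have hfix : M.fixingSubgroup = g.ker := IntermediateField.fixingSubgroup_fixedField g.ker
  have hgal : IsGalois ℚ M := IsGalois.of_fixedField_normal_subgroup g.ker
  have hnf : NumberField M := inferInstance
  have hgapp : ∀ x, g x = f (e.symm x) := fun x => rfl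
  have hreal : IsTotallyReal M := by
    refine totallyReal g (fun c hc hc2 => ?_)
    refine h2 (e.symm c) 2 Nat.prime_two (by rw [← hgapp]; exact hc) ?_
    rw [← map_pow, hc2, map_one]
  refine ⟨M, inferInstance, hnf, hgal, ?_, hreal, ?_⟩
  · exact ⟨(QuotientGroup.quotientKerEquivOfSurjective g hgs).symm.trans
      (IsGalois.normalAutEquivQuotient g.ker)⟩
  · intro P hP p ℓ hp hℓ hne hpP hdvd
    have hP0 : P ≠ ⊥ := by
      rintro rfl
      have h1 : (p : 𝓞 M) = 0 := by simpa using hpP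
      have h2 : (p : ℕ) = 0 := by exact_mod_cast h1
      exact hp.ne_zero h2
    have h3 := ram_dvd g (k + 1) (fun σ τ q l hl hrel hord => by
      refine hcov (e.symm σ) (e.symm τ) q l hl ?_ (by rw [← hgapp]; exact hord)
      rw [← map_mul, ← map_inv, ← map_mul, ← map_pow, hrel]) M hfix P hP0 p ℓ hp hℓ hne hpP hdvd
    have h4 : (ℓ : ℤ) ^ k ∣ (p : ℤ) ^ Nat.card G - 1 :=
      (pow_dvd_pow _ (Nat.le_succ k)).trans h3
    have h5 : 1 ≤ p ^ Nat.card G := Nat.one_le_pow _ _ hp.pos
    zify [h5]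
    exact h4

theorem wildAt_of_tameTo (G : Type) [Group G] [Finite G] (h : ∀ k, TameTo k G) (S : Finset ℕ) :
    WildAt S G := by
  classical
  set K := ∑ p ∈ S, p ^ Nat.card G with hK
  obtain ⟨M, i1, i2, hgal, ⟨e⟩, hreal, hram⟩ := h K
  refine ⟨M, i1, i2, hgal, ⟨e⟩, hreal, ?_⟩
  intro P hP p hpS hp hpP
  have hP0 : P ≠ ⊥ := by
    rintro rfl
    have h1 : (p : 𝓞 M) = 0 := by simpa using hpP
    have h2 : (p : ℕ) = 0 := by exact_mod_cast h1
    exact hp.ne_zero h2
  have hcard : 0 < Nat.card G := Nat.card_pos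
  have hno : ∀ ℓ : ℕ, ℓ.Prime → ℓ ∣ P.ramificationIdx ℤ → ℓ = p := by
    intro ℓ hℓ hdvd
    by_contra hne
    have h1 := hram P hP p ℓ hp hℓ hne hpP hdvd
    have h2 : 1 < p ^ Nat.card G := Nat.one_lt_pow hcard.ne' hp.one_lt
    have h3 := Nat.le_of_dvd (by omega) h1
    have h4 : p ^ Nat.card G ≤ K := Finset.single_le_sum (f := fun p => p ^ Nat.card G)
      (fun _ _ => Nat.zero_le _) hpS
    have h5 : K < ℓ ^ K := Nat.lt_pow_self hℓ.one_lt
    omega
  have hne0 : P.ramificationIdx ℤ ≠ 0 := by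
    exact (P.ramificationIdx_pos ℤ).ne'
  have hpow : P.ramificationIdx ℤ = p ^ (P.ramificationIdx ℤ).primeFactorsList.length :=
    Nat.eq_prime_pow_of_unique_prime_dvd hne0 (fun {d} hd hdd => hno d hd hdd)
  refine ⟨⟨_, hpow⟩, fun hnd => ?_⟩
  -- the ramification index divides `|G|`
  have hdvd : P.ramificationIdx ℤ ∣ Nat.card G := by
    rw [← Ideal.ramificationIdxIn_eq_ramificationIdx (P.under ℤ) P (M ≃ₐ[ℚ] M)]
    have h1 := Ideal.ncard_primesOver_mul_ramificationIdxIn_mul_inertiaDegIn (P.under ℤ) (𝓞 M)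
      (M ≃ₐ[ℚ] M)
    rw [Nat.card_congr e.toEquiv, ← h1]
    exact (Dvd.intro _ rfl).mul_left _
  by_contra hne1
  obtain ⟨ℓ, hℓ, hℓd⟩ := Nat.exists_prime_and_dvd hne1
  rw [hno ℓ hℓ hℓd] at hℓd
  exact hnd (hℓd.trans hdvd)

end Pool.Agent.W206.IG

open Pool.Agent.Results.MP_dadaab_nt.FreeLocalConditions Pool.Agent.W206.IG in
theorem Pool.Agent.Results.MP_dadaab_nt.FreeLocalConditions.result :
    List.TFAE [
      ∀ (G : Type) [Fintype G] [Group G], IsRealizable ℚ G,
      ∀ (G : Type) [Group G] [Finite G] (k : ℕ), TameTo k G,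
      ∀ (G : Type) [Group G] [Finite G] (S : Finset ℕ), WildAt S G] := by
  tfae_have 1 → 2 := by
    intro h G _ _ k
    exact tameTo_of_realizable G k (fun H _ _ => by
      have := Fintype.ofFinite H
      exact h H)
  tfae_have 2 → 3 := fun h G _ _ S => wildAt_of_tameTo G (h G) S
  tfae_have 3 → 1 := by
    intro h G _ _
    obtain ⟨M, i1, i2, hgal, ⟨e⟩, _, _⟩ := h G ∅
    exact ⟨⟨⟨M, i1, inferInstance, hgal, e⟩⟩⟩
  tfae_finish
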