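import Mathlib
import Pool.Agent.W299.GR.All

/-!
# Prescribed local homomorphisms for wreath products over `ℚ`

For every finite group `G`, all `r` and all `n ≥ n₀(G) + C(G) r`, any finite family of continuous
homomorphisms `ψ_p : Gal(ℚ̄_p/ℚ_p) → G ≀ S_r` is realised, as the restriction to the first `r`
coordinates of the decomposition homomorphisms, by a totally real Galois extension of `ℚ` with
group `G ≀ S_n`; the decomposition homomorphism at `p` has the same kernel as `ψ_p`.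
-/

set_option autoImplicit false

open Pool.Agent.H391R2

namespace Pool.Agent.Results.MP_dadaab_nt.LocalHoms

/-- The absolute Galois group of `ℚ_p`. -/
abbrev GalQp (p : ℕ) [Fact p.Prime] : Type :=
  AlgebraicClosure ℚ_[p] ≃ₐ[ℚ_[p]] AlgebraicClosure ℚ_[p]

/-- `x` in `G ≀ S_n = (Fin n → G) ⋊ Perm (Fin n)` preserves the set of the first `r` coordinates
and acts on them as `y` in `G ≀ S_r`. -/
def ActsAs {G : Type} [Group G] {r n : ℕ} (h : r ≤ n) (x : Wr G n) (y : Wr G r) : Prop :=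
  ∀ i : Fin r, x.right (Fin.castLE h i) = Fin.castLE h (y.right i) ∧
    x.left (Fin.castLE h i) = y.left i

/-- `D` is the decomposition homomorphism of the Galois extension `K` of `ℚ` at `p` attached to
the embedding `σ` of `K` into the algebraic closure of `ℚ_p`. -/
def IsDecomp {K : Type} [Field K] [NumberField K] {p : ℕ} [Fact p.Prime]
    (σ : K →+* AlgebraicClosure ℚ_[p]) (D : GalQp p →* (K ≃ₐ[ℚ] K)) : Prop :=
  ∀ τ x, σ (D τ x) = τ (σ x)

end Pool.Agent.Results.MP_dadaab_nt.LocalHoms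

open Pool.Agent.Results.MP_dadaab_nt.LocalHoms in
theorem Pool.Agent.Results.MP_dadaab_nt.LocalHoms.result :
    ∀ (G : Type) [Group G] [Finite G], ∃ n₀ C : ℕ, ∀ (r n : ℕ) (h : r ≤ n), n₀ + C * r ≤ n →
      ∀ (S : Finset ℕ) [∀ p : S, Fact (p : ℕ).Prime] (ψ : ∀ p : S, GalQp p →* Wr G r),
        (∀ p : S, IsOpen ((ψ p).ker : Set (GalQp p))) →
        ∃ (K : Type) (_ : Field K) (_ : NumberField K) (_ : IsGalois ℚ K)
          (e : (K ≃ₐ[ℚ] K) ≃* Wr G n), NumberField.IsTotallyReal K ∧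
          ∀ p : S, ∃ (σ : K →+* AlgebraicClosure ℚ_[(p : ℕ)]) (D : GalQp p →* (K ≃ₐ[ℚ] K)),
            IsDecomp σ D ∧ D.ker = (ψ p).ker ∧ ∀ τ, ActsAs h (e (D τ)) (ψ p τ) := by
  intro G _ _
  obtain ⟨n₀, C₀, hn₀⟩ := Pool.Agent.W299.GR.local_hom_all G
  refine ⟨n₀, C₀, fun r n h hn S _ ψ hψ => ?_⟩
  obtain ⟨K, i1, i2, i3, e, h1, h2⟩ := hn₀ r n h hn S (fun p => (p : ℕ))
    Subtype.val_injective ψ hψ
  refine ⟨K, i1, i2, i3, e, h1, fun p => ?_⟩
  obtain ⟨σ, hσ⟩ := h2 p
  choose D hD1 hD2 hD3 using hσ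
  have hmul : ∀ τ τ', D (τ * τ') = D τ * D τ' := by
    intro τ τ'
    ext x
    apply σ.injective
    rw [← hD1]
    change τ (τ' (σ x)) = σ (D τ (D τ' x))
    rw [hD1 τ', hD1 τ]
  refine ⟨σ, MonoidHom.mk' D hmul, fun τ x => (hD1 τ x).symm, ?_, fun τ => hD2 τ⟩
  ext τ
  rw [MonoidHom.mem_ker, MonoidHom.mem_ker]
  constructor
  · intro h3
    have h4 : D τ = 1 := h3
    have h5 := hD2 τ
    rw [h4, map_one] at h5
    apply SemidirectProduct.ext
    · funext i
      exact (h5 i).2.symm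
    · apply Equiv.ext
      intro i
      exact Fin.castLE_injective h (h5 i).1.symm
  · exact hD3 τ
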